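import Pool.Agent.MP_dd54b8_co.Final

/-!
# MP_dd54b8_co : rainbow connection number of `k`-connected graphs

For every `k ≥ 1` and every `ε > 0` there is a constant `c` such that every `k`-connected graph on
`n` vertices has rainbow connection number at most `⌈(1 + ε) n / k⌉ + c`.
-/

set_option autoImplicit false

namespace Pool.Agent.Results.MP_dd54b8_co.LeadingConstant

theorem result : ∀ k : ℕ, 0 < k → ∀ ε : ℝ, 0 < ε → ∃ c : ℕ, ∀ (V : Type) [Fintype V]
    (G : SimpleGraph V),
      (k < Fintype.card V ∧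
        ∀ S : Finset V, S.card < k → (G.induce ((↑S : Set V)ᶜ)).Connected) →
      ∃ f : Sym2 V → Fin (⌈(1 + ε) * (Fintype.card V : ℝ) / (k : ℝ)⌉₊ + c),
        ∀ u v : V, ∃ p : G.Walk u v, p.IsPath ∧ (p.edges.map f).Nodup :=
  Pool.Agent.RBC.final_form

end Pool.Agent.Results.MP_dd54b8_co.LeadingConstant
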