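import Pool.Agent.MP_dd54b8_co.OF

/-!
# MP_dd54b8_co : rainbow connection number of `k`-connected graphs, `k` odd

For every odd `k` there is a constant `c` such that every `k`-connected graph on `n` vertices has
rainbow connection number at most `⌈n / k⌉ + c`.
-/

set_option autoImplicit false

namespace Pool.Agent.Results.MP_dd54b8_co.OddAdditive

theorem result : ∀ k : ℕ, Odd k → ∃ c : ℕ, ∀ (V : Type) [Fintype V]
    (G : SimpleGraph V),
      (k < Fintype.card V ∧
        ∀ S : Finset V, S.card < k → (G.induce ((↑S : Set V)ᶜ)).Connected) →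
      ∃ f : Sym2 V → Fin (⌈(Fintype.card V : ℝ) / (k : ℝ)⌉₊ + c),
        ∀ u v : V, ∃ p : G.Walk u v, p.IsPath ∧ (p.edges.map f).Nodup :=
  fun k hk => Pool.Agent.RBC.final_odd k (Nat.odd_iff.mp hk)

end Pool.Agent.Results.MP_dd54b8_co.OddAdditive
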